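import Mathlib

open Complex

namespace Pool.Agent.W61h.Landau

theorem iter_logMul (a : ℕ → ℝ) (m n : ℕ) :
    (LSeries.logMul^[m] (fun k => (a k : ℂ))) n = (((Real.log n) ^ m * a n : ℝ) : ℂ) := by
  induction m generalizing n with
  | zero => simp
  | succ m ih =>
    rw [Function.iterate_succ_apply', LSeries.logMul, ih, ← natCast_log]
    push_cast
    ring

/-- Landau's lemma for a Dirichlet series with non-negative coefficients: the function has a
holomorphic continuation to the half plane `w1 < Re w`, so the series converges at every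
`w0 > w1` and equals the function there. -/
theorem landau (a : ℕ → ℝ) (ha : ∀ n, 0 ≤ a n) (ha0 : a 0 = 0) (f : ℂ → ℂ) (c w1 w0 : ℝ)
    (hw : w1 < w0)
    (hsum : Summable (fun n : ℕ => a n * (n : ℝ) ^ (-c)))
    (hf : DifferentiableOn ℂ f {w : ℂ | w1 < w.re})
    (heq : ∀ w : ℂ, c < w.re → f w = ∑' n : ℕ, (a n : ℂ) * (n : ℂ) ^ (-w)) :
    Summable (fun n : ℕ => a n * (n : ℝ) ^ (-w0)) ∧
      f (w0 : ℂ) = ((∑' n : ℕ, a n * (n : ℝ) ^ (-w0) : ℝ) : ℂ) := by
  obtain ⟨A, hA⟩ : ∃ A : ℕ → ℂ, A = fun n => (a n : ℂ) := ⟨_, rfl⟩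
  have hA0 : A 0 = 0 := by simp [hA, ha0]
  have hterm0 : ∀ (x : ℝ) (B : ℕ → ℝ), B 0 = 0 → ∀ n : ℕ,
      LSeries.term (fun k => (B k : ℂ)) (x : ℂ) n = ((B n * (n : ℝ) ^ (-x) : ℝ) : ℂ) := by
    intro x B hB n
    rw [LSeries.term_def₀ (by simp [hB])]
    push_cast
    rw [ofReal_cpow (Nat.cast_nonneg n)]
    push_cast
    rfl
  have hLs : LSeriesSummable A (c : ℂ) := by
    unfold LSeriesSummable
    rw [hA]
    have : LSeries.term (fun k => (a k : ℂ)) (c : ℂ)
        = fun n : ℕ => ((a n * (n : ℝ) ^ (-c) : ℝ) : ℂ) := funext (hterm0 c a ha0)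
    rw [this]
    exact_mod_cast hsum
  have habs : LSeries.abscissaOfAbsConv A ≤ (c : EReal) := by
    simpa using hLs.abscissaOfAbsConv_le
  obtain ⟨b, hb⟩ : ∃ b : ℝ, b = max c w0 + 1 := ⟨_, rfl⟩
  have hbc : c < b := by rw [hb]; linarith [le_max_left c w0]
  have hbw : w0 < b := by rw [hb]; linarith [le_max_right c w0]
  have hEq : Set.EqOn f (LSeries A) {w : ℂ | c < w.re} := by
    intro w hw'
    rw [heq w hw', LSeries_def₀ hA0, hA]
    refine tsum_congr fun n => ?_
    rw [cpow_neg, div_eq_mul_inv]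
  have hopen : IsOpen {w : ℂ | c < w.re} := continuous_re.isOpen_preimage _ isOpen_Ioi
  have hbabs : LSeries.abscissaOfAbsConv A < ((b : ℂ).re : EReal) := by
    refine lt_of_le_of_lt habs ?_
    simpa using hbc
  have hder : ∀ m, iteratedDeriv m f b = (-1) ^ m * LSeries (LSeries.logMul^[m] A) b := by
    intro m
    rw [hEq.iteratedDeriv_of_isOpen hopen m (by simpa using hbc)]
    exact LSeries_iteratedDeriv m hbabs
  obtain ⟨g, hg⟩ : ∃ g : ℕ × ℕ → ℝ, g = fun p => (b - w0) ^ p.1 / (p.1).factorial *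
      ((Real.log p.2) ^ p.1 * a p.2 * (p.2 : ℝ) ^ (-b)) := ⟨_, rfl⟩
  have hg0 : 0 ≤ g := by
    intro p
    rw [hg]
    have h1 : 0 ≤ b - w0 := by linarith
    have h2 : 0 ≤ Real.log p.2 := Real.log_natCast_nonneg _
    have h3 := ha p.2
    simp only [Pi.zero_apply]
    positivity
  have hterm : ∀ m n : ℕ, LSeries.term (LSeries.logMul^[m] A) (b : ℂ) n
      = (((Real.log n) ^ m * a n * (n : ℝ) ^ (-b) : ℝ) : ℂ) := by
    intro m n
    have h1 : LSeries.logMul^[m] A = fun k : ℕ => (((Real.log k) ^ m * a k : ℝ) : ℂ) := by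
      funext k
      rw [hA]
      exact iter_logMul a m k
    rw [h1]
    exact hterm0 b (fun k : ℕ => (Real.log k) ^ m * a k) (by simp [ha0]) n
  have hsummableC : ∀ m : ℕ, Summable (fun n : ℕ =>
      (((Real.log n) ^ m * a n * (n : ℝ) ^ (-b) : ℝ) : ℂ)) := by
    intro m
    have h1 : LSeriesSummable (LSeries.logMul^[m] A) (b : ℂ) := by
      apply LSeriesSummable_of_abscissaOfAbsConv_lt_re
      rw [LSeries.absicssaOfAbsConv_logPowMul]
      exact hbabs
    unfold LSeriesSummable at h1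
    rwa [funext (hterm m)] at h1
  have hsummable : ∀ m : ℕ, Summable (fun n : ℕ =>
      (Real.log n) ^ m * a n * (n : ℝ) ^ (-b)) := by
    intro m
    exact_mod_cast hsummableC m
  have hLval : ∀ m : ℕ, LSeries (LSeries.logMul^[m] A) (b : ℂ)
      = ((∑' n : ℕ, (Real.log n) ^ m * a n * (n : ℝ) ^ (-b) : ℝ) : ℂ) := by
    intro m
    unfold LSeries
    rw [ofReal_tsum]
    exact tsum_congr (hterm m)
  -- the Taylor series
  have hball : Metric.ball (b : ℂ) (b - w1) ⊆ {w : ℂ | w1 < w.re} := by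
    intro w hw'
    rw [Metric.mem_ball, Complex.dist_eq] at hw'
    have h1 : |(w - b).re| < b - w1 := lt_of_le_of_lt (abs_re_le_norm _) hw'
    have h2 := (abs_lt.mp h1).1
    simp only [sub_re, ofReal_re] at h2
    simp only [Set.mem_ofPred_eq]
    linarith
  have hmem : (w0 : ℂ) ∈ Metric.ball (b : ℂ) (b - w1) := by
    rw [Metric.mem_ball, Complex.dist_eq, ← ofReal_sub, norm_real, Real.norm_eq_abs,
      abs_of_neg (by linarith)]
    linarith
  have hT := Complex.hasSum_taylorSeries_on_ball (hf.mono hball) hmem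
  have hTm : ∀ m : ℕ, ((m.factorial : ℂ)⁻¹ • ((w0 : ℂ) - b) ^ m • iteratedDeriv m f b)
      = ((∑' n : ℕ, g (m, n) : ℝ) : ℂ) := by
    intro m
    obtain ⟨S, hS⟩ : ∃ S : ℝ, S = ∑' n : ℕ, (Real.log n) ^ m * a n * (n : ℝ) ^ (-b) := ⟨_, rfl⟩
    have hgS : ∑' n : ℕ, g (m, n) = (b - w0) ^ m / (m.factorial : ℝ) * S := by
      rw [hS, ← tsum_mul_left, hg]
    have hLS : LSeries (LSeries.logMul^[m] A) (b : ℂ) = (S : ℂ) := by
      rw [hS]
      exact hLval m
    rw [hder m, hLS, hgS]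
    push_cast
    simp only [smul_eq_mul]
    have h1 : ((w0 : ℂ) - b) ^ m = (-1) ^ m * ((b : ℂ) - w0) ^ m := by
      rw [← mul_pow]
      congr 1
      ring
    rw [h1]
    have h2 : ((-1 : ℂ)) ^ m * (-1) ^ m = 1 := by
      rw [← mul_pow]
      simp
    rw [div_eq_mul_inv]
    linear_combination ((m.factorial : ℂ)⁻¹ * ((b : ℂ) - w0) ^ m * (S : ℂ)) * h2
  rw [funext hTm] at hT
  have hTs : Summable (fun m : ℕ => ∑' n : ℕ, g (m, n)) := by
    have := hT.summable
    exact_mod_cast this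
  have hTv : f (w0 : ℂ) = ((∑' m : ℕ, ∑' n : ℕ, g (m, n) : ℝ) : ℂ) := by
    rw [ofReal_tsum]
    exact hT.tsum_eq.symm
  have hgs : Summable g := by
    rw [summable_prod_of_nonneg hg0]
    refine ⟨fun m => ?_, hTs⟩
    have h5 := (hsummable m).mul_left ((b - w0) ^ m / (m.factorial : ℝ))
    rw [hg]
    exact h5
  have hinner : ∀ n : ℕ, HasSum (fun m : ℕ => g (m, n)) (a n * (n : ℝ) ^ (-w0)) := by
    intro n
    rcases Nat.eq_zero_or_pos n with h0 | hpos
    · subst h0
      rw [hg]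
      simp only [ha0, mul_zero, zero_mul]
      exact hasSum_zero
    · have h0 : HasSum (fun m : ℕ => ((b - w0) * Real.log n) ^ m / (m.factorial : ℝ))
          (Real.exp ((b - w0) * Real.log n)) := by
        rw [Real.exp_eq_exp_ℝ]
        exact NormedSpace.expSeries_div_hasSum_exp _
      have h1 := h0.mul_right (a n * (n : ℝ) ^ (-b))
      have h2 : Real.exp ((b - w0) * Real.log n) * (a n * (n : ℝ) ^ (-b))
          = a n * (n : ℝ) ^ (-w0) := by
        have hn : (0 : ℝ) < n := by exact_mod_cast hpos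
        have h3 : Real.exp ((b - w0) * Real.log n) = (n : ℝ) ^ (b - w0) := by
          rw [Real.rpow_def_of_pos hn, mul_comm]
        rw [h3]
        have h4 : (n : ℝ) ^ (-w0) = (n : ℝ) ^ (b - w0) * (n : ℝ) ^ (-b) := by
          rw [← Real.rpow_add hn]
          congr 1
          ring
        rw [h4]
        ring
      rw [h2] at h1
      have h3 : (fun m : ℕ => g (m, n)) = fun m : ℕ =>
          ((b - w0) * Real.log n) ^ m / (m.factorial : ℝ) * (a n * (n : ℝ) ^ (-b)) := by
        funext m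
        rw [hg]
        simp only
        rw [mul_pow]
        ring
      rw [h3]
      exact h1
  have hswap : ∑' m : ℕ, ∑' n : ℕ, g (m, n) = ∑' n : ℕ, ∑' m : ℕ, g (m, n) := by
    have hgs' : Summable (Function.uncurry fun m n => g (m, n)) := hgs
    have := Summable.tsum_comm (f := fun m n => g (m, n)) hgs'
    exact this.symm
  have hinner' : ∀ n : ℕ, ∑' m : ℕ, g (m, n) = a n * (n : ℝ) ^ (-w0) :=
    fun n => (hinner n).tsum_eq
  refine ⟨?_, ?_⟩
  · have h1 : Summable (fun n : ℕ => ∑' m : ℕ, g (m, n)) := by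
      have h2 := hgs.prod_symm
      exact h2.prod
    rwa [funext hinner'] at h1
  · rw [hTv, hswap]
    congr 1
    exact tsum_congr hinner'

end Pool.Agent.W61h.Landau
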